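import Mathlib
import Pool.Prelude.Def_F_c31e40fa
import Pool.Agent.H58AC.J

set_option autoImplicit false

/-!
# Parameter rays at the parameters with a positive Lyapunov exponent

Let `M` be the Multibrot set of degree `d ≥ 2`, with exterior conformal map `ψ`, and let `c₀` be a
point of `M` such that `log |(f^n)' (c₀)| / n` tends to `χ > 0`, where `f z = z ^ d + c₀`. Then there is
a point `ζ` of the unit circle such that both `|ψ w - c₀|` and the distance of `ψ w` to `M` are
`(|w| - 1) ^ (χ / log d + o(1))` when `w` tends to `ζ`, in all nontangential regions and even in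
slightly tangential ones.

Proof. The orbits which escape under `f` expand exponentially (`Pool.Agent.H58AC.expand`): far from the
critical point by the decay of the truncated transfer operator, and near the critical point because the
derivative gained by following the critical orbit compensates the loss with an arbitrarily large factor.
Up to a time proportional to the time of the passage near `c₀` this passes to the derivative of the
critical orbit in the parameter (`Pool.Agent.H58AC.par_low`), which bounds the derivative of `ψ` from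
above. Starting from points near `c₀` with almost the largest escape rate and going up their rays,
the distance to `c₀` can only grow at the expected rate (`Pool.Agent.H58AC.up_ray`); the ray of angle
`ζ` is a limit of these rays.
-/

open Filter Topology Set Metric N62a1eb23

namespace Pool.Agent.Results.MP_fcb70f_an.AccessAtLyapunovParameters

open Pool.Agent.H713R2

/-- The map `z ↦ z ^ d + c`. -/
def f (d : ℕ) (c : ℂ) : ℂ → ℂ := fun z => z ^ d + c

/-- The critical value `c` of `z ↦ z ^ d + c` has the positive Lyapunov exponent `χ`. -/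
def LyapunovExponent (d : ℕ) (c : ℂ) (χ : ℝ) : Prop :=
  0 < χ ∧ Tendsto (fun n : ℕ => Real.log ‖deriv ((f d c)^[n]) c‖ / n) atTop (𝓝 χ)

/-- **The exterior map of the Multibrot set at the parameters with a positive Lyapunov exponent.** -/
theorem result (d : ℕ) (hd : 2 ≤ d) :
    (∃ ψ : ℂ → ℂ, IsExteriorMap (multibrotSet d) ψ) ∧
    ∀ ψ : ℂ → ℂ, IsExteriorMap (multibrotSet d) ψ →
      ∀ c₀ ∈ multibrotSet d, ∀ χ : ℝ, LyapunovExponent d c₀ χ →
        ∃ ζ : ℂ, ‖ζ‖ = 1 ∧ ∀ ε : ℝ, 0 < ε → ∃ η t₀ : ℝ, 0 < η ∧ 0 < t₀ ∧
          ∀ w : ℂ, 1 < ‖w‖ → ‖w‖ < 1 + t₀ → ‖w - ζ‖ ≤ (‖w‖ - 1) ^ (1 - η) →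
            (‖w‖ - 1) ^ (χ / Real.log d + ε) ≤ infDist (ψ w) (multibrotSet d) ∧
            ‖ψ w - c₀‖ ≤ (‖w‖ - 1) ^ (χ / Real.log d - ε) := by
  obtain ⟨β, hβ⟩ := exists_beta (d := d) hd
  refine ⟨⟨_, exteriorMap_of_beta hβ⟩, ?_⟩
  intro ψ hψ c₀ hc₀ χ hχ
  exact Pool.Agent.H58AC.access hd hψ ⟨hχ.1, hc₀, hχ.2⟩

end Pool.Agent.Results.MP_fcb70f_an.AccessAtLyapunovParameters
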