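import Mathlib
import Pool.Prelude.Def_F_c31e40fa
import Pool.Agent.R449.MB.Mlc
import Pool.Agent.R240.Res3
import Pool.Agent.H7M.Char

set_option autoImplicit false

/-!
# Local connectivity of the Multibrot sets is decided at good parameters which are not cut points

Let `d ≥ 2` and let `M` be the Multibrot set of degree `d`. The end parameters are the boundary
parameters which are isolated, nonresonant and slim for every period of renormalization and which do
not cut `M`. The set `M` is locally connected if (and only if) it is locally connected at its end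
parameters, and if and only if any two end parameters are separated in `M` by finitely many small
subcontinua.

Proof: around every point of the plane almost every circle meets the boundary of `M` in good
parameters only (`ae_good`). If `M` is not locally connected at `p`, then components of
`M ∩ closedBall p ε` converge (along an ultrafilter) to a continuum `Y` which meets all small circles
about `p`. These components miss every finite union of small subcontinua, so that such a union does
not separate two points of `Y`. The cut points of `M` in `Y` cut off disjoint open subsets of `M`, so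
they are countable, and almost every circle about `p` misses them.
-/

open Filter Topology Set Metric MeasureTheory Complex N62a1eb23

namespace Pool.Agent.Results.MP_fcb70f_an.EndParameters

open Pool.Agent.H713R2

/-- The map `z ↦ z ^ d + c`. -/
def f (d : ℕ) (c : ℂ) : ℂ → ℂ := fun z => z ^ d + c

/-- The point `f_c^n (0)` of the critical orbit. -/
def P (d n : ℕ) (c : ℂ) : ℂ := (f d c)^[n] 0

/-- The superattracting parameters of period dividing `n`. -/
def centres (d n : ℕ) : Set ℂ := {a | P d n a = 0}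

/-- The perturbation `(id + t Φ) ∘ f_c` of `f_c`. For `Φ = 1` it is `f_(c + t)`. -/
def g (d : ℕ) (c : ℂ) (Φ : ℂ → ℂ) (t : ℂ) : ℂ → ℂ := fun z => f d c z + t * Φ (f d c z)

/-- `h` is proper of degree at most `d` from the bounded open set `U` onto a set which contains the
closure of `U`. Polynomial-like maps of degree `d` have this property. -/
def PolynomialLike (d : ℕ) (h : ℂ → ℂ) (U : Set ℂ) : Prop :=
  IsOpen U ∧ Bornology.IsBounded U ∧ closure U ⊆ h '' U ∧
    (∀ K ⊆ h '' U, IsCompact K → IsCompact {z | z ∈ U ∧ h z ∈ K}) ∧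
    ∀ w ∈ h '' U, {z | z ∈ U ∧ h z = w}.encard ≤ d

/-- `z ↦ z ^ d + c` is renormalizable of period `p`. -/
def Renormalizable (d : ℕ) (c : ℂ) (p : ℕ) : Prop :=
  ∃ U : Set ℂ, PolynomialLike d ((f d c)^[p]) U ∧ (0 : ℂ) ∈ U ∧
    (∀ n : ℕ, 1 ≤ n → (f d c)^[n * p] 0 ∈ U) ∧ ∀ z ∈ U, deriv ((f d c)^[p]) z = 0 → z = 0

/-- Isolated parameters. For `q = 1` and for every period `q` of renormalization, for every
`κ < q`: all small discs of radius `r` about `c` contain at most `d ^ n * r ^ κ` superattracting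
parameters of period dividing `n`, for all `n` at the same time, and the sum of `|a - c| ^ (-κ)` over
the superattracting parameters `a` of period dividing `n` is at most a constant times `d ^ n`. -/
def Isolated (d : ℕ) (c : ℂ) : Prop :=
  ∀ q : ℕ, 1 ≤ q → (q = 1 ∨ Renormalizable d c q) → ∀ κ : ℝ, 0 < κ → κ < q →
    (∀ᶠ r : ℝ in 𝓝[>] 0, ∀ n : ℕ, 1 ≤ n →
      ((centres d n ∩ ball c r).ncard : ℝ) ≤ (d : ℝ) ^ n * r ^ κ) ∧
    ∃ C : ℝ, ∀ n : ℕ, 1 ≤ n → c ∉ centres d n ∧
      ∑ᶠ a ∈ centres d n, dist a c ^ (-κ) ≤ C * (d : ℝ) ^ n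

/-- Nonresonant parameters. For `q = 1` and for every period `q` of renormalization, for every
`X > log d / q` and all large `n`, all superattracting parameters of period dividing `n` are at
distance more than `exp (- X n)`, and every holomorphic perturbation of the map moves the `n`-th
point of the critical orbit with a speed which is at most `exp (X n)` times its size (up to a
logarithm and a constant). -/
def Nonresonant (d : ℕ) (K : ℝ) (c : ℂ) : Prop :=
  ∀ q : ℕ, 1 ≤ q → (q = 1 ∨ Renormalizable d c q) → ∀ X : ℝ, Real.log d / q < X →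
    ∀ᶠ n : ℕ in atTop, (∀ a ∈ centres d n, Real.exp (-(X * n)) < dist a c) ∧
      ∀ (Φ : ℂ → ℂ) (M : ℝ), DifferentiableOn ℂ Φ (ball 0 4) →
        (∀ x ∈ ball (0 : ℂ) 4, ‖Φ x‖ ≤ M) →
        DifferentiableAt ℂ (fun t : ℂ => (g d c Φ t)^[n] 0) 0 ∧
        ‖deriv (fun t : ℂ => (g d c Φ t)^[n] 0) 0‖ ≤
          K * M * Real.exp (X * n) * (‖P d n c‖ * (1 + |Real.log ‖P d n c‖|))

/-- The angles `t ∈ (0, 2π]` of the external rays landing at distance less than `r` from `c₀`. -/
def angles (ψ : ℂ → ℂ) (c₀ : ℂ) (r : ℝ) : Set ℝ :=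
  {t | t ∈ Ioc 0 (2 * Real.pi) ∧ ∃ ζ ∈ ball c₀ r,
    Tendsto (fun ρ : ℝ => ψ (ρ * exp (t * I))) (𝓝[>] 1) (𝓝 ζ)}

/-- The harmonic measure (from infinity) of the disc of radius `r`, up to the factor `2π`. -/
noncomputable def harm (ψ : ℂ → ℂ) (c₀ : ℂ) (r : ℝ) : ℝ := (volume (angles ψ c₀ r)).toReal

/-- The maximum over a disc of Green's function of the complement of the Multibrot set: Green's
function is `log ‖w‖` at the point `ψ w`. -/
noncomputable def green (ψ : ℂ → ℂ) (c₀ : ℂ) (r : ℝ) : ℝ :=
  sSup {x | ∃ w : ℂ, 1 < ‖w‖ ∧ ‖ψ w - c₀‖ ≤ r ∧ Real.log ‖w‖ = x}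

/-- Slim parameters. For `q = 1` and for every period `q` of renormalization: the harmonic measure
and Green's function of the disc of radius `r` about `c` are less than `r ^ κ` for small `r`, for
every `κ < q`, and the exponential rate of growth of the derivatives with respect to the parameter is
at most `log d / q`. -/
def Slim (d : ℕ) (ψ : ℂ → ℂ) (c : ℂ) : Prop :=
  ∀ q : ℕ, 1 ≤ q → (q = 1 ∨ Renormalizable d c q) →
    (∀ κ : ℝ, 0 < κ → κ < q → ∀ᶠ r : ℝ in 𝓝[>] 0, harm ψ c r < r ^ κ ∧ green ψ c r < r ^ κ) ∧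
    ∀ a : ℝ, Real.log d / q < a → ∀ᶠ n : ℕ in atTop, ‖deriv (P d n) c‖ < Real.exp (a * n)

/-- Isolated, nonresonant and slim. -/
def Good (d : ℕ) (K : ℝ) (ψ : ℂ → ℂ) (c : ℂ) : Prop :=
  Isolated d c ∧ Nonresonant d K c ∧ Slim d ψ c

/-- `K` is locally connected at `c` in the weak sense (connected im kleinen): the points of `K`
close to `c` are joined to `c` by small connected subsets of `K`. -/
def LocallyConnectedAt (K : Set ℂ) (c : ℂ) : Prop :=
  ∀ ε : ℝ, 0 < ε → ∃ δ : ℝ, 0 < δ ∧ ∀ q ∈ K, dist q c < δ →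
    ∃ C ⊆ K ∩ ball c ε, IsPreconnected C ∧ c ∈ C ∧ q ∈ C

/-- `c` is a point of the boundary of the Multibrot set at which the set is not cut, and a good
parameter. -/
def EndParameter (d : ℕ) (K : ℝ) (ψ : ℂ → ℂ) (c : ℂ) : Prop :=
  c ∈ frontier (multibrotSet d) ∧ Good d K ψ c ∧ IsPreconnected (multibrotSet d \ {c})

/-- `S` separates `a` and `b` in `M`: the set `M \ S` is the union of two disjoint relatively open
subsets, the first containing `a` and the second `b`. -/
def Separates (M S : Set ℂ) (a b : ℂ) : Prop :=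
  ∃ U V : Set ℂ, IsOpen U ∧ IsOpen V ∧ M \ S ⊆ U ∪ V ∧ (M \ S) ∩ (U ∩ V) = ∅ ∧
    a ∈ U \ S ∧ b ∈ V \ S

/-- The points `a` and `b` are separated in `M` by the union of finitely many subcontinua of `M` of
diameter less than `η`. -/
def SmallSeparation (M : Set ℂ) (η : ℝ) (a b : ℂ) : Prop :=
  ∃ T : Set (Set ℂ), T.Finite ∧ (∀ t ∈ T, IsCompact t ∧ IsConnected t ∧ t ⊆ M ∧ diam t < η) ∧
    Separates M (⋃₀ T) a b

/-- The points `a` and `b` are separated in `M` by a locally connected compact subset of `M`, for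
instance by a finite set, or by finitely many points and arcs. -/
def LcSeparation (M : Set ℂ) (a b : ℂ) : Prop :=
  ∃ S : Set ℂ, IsCompact S ∧ LocallyConnectedSpace S ∧ S ⊆ M ∧ Separates M S a b

theorem centres_eq {d : ℕ} (hd : 2 ≤ d) (N : ℕ) :
    centres d (N + 1) = ((Pool.Agent.R240.LL.ZZ d N : Finset ℂ) : Set ℂ) := by
  ext a
  rw [Finset.mem_coe, Pool.Agent.R240.LL.mem_ZZ hd]
  rfl

theorem inter_eq (d n : ℕ) (c : ℂ) (r : ℝ) :
    centres d n ∩ ball c r = Pool.Agent.R240.Sparse.cen d n c r := by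
  ext a
  exact and_comm

theorem isolated {d : ℕ} (hd : 2 ≤ d) {c : ℂ} (h : Pool.Agent.R449.MB.Nice d c) :
    Isolated d c := by
  intro q hq hr κ hκ0 hκ
  obtain ⟨h1, h2, C, hC⟩ := h q hq hr κ hκ0 hκ
  refine ⟨?_, C, ?_⟩
  · filter_upwards [h1] with r h3 n hn
    rw [inter_eq]
    exact h3 n hn
  · intro n hn
    obtain ⟨N, rfl⟩ : ∃ N, n = N + 1 := ⟨n - 1, by omega⟩
    refine ⟨h2 (N + 1) hn, ?_⟩
    rw [centres_eq hd, finsum_mem_coe_finset]
    simpa only [dist_eq_norm] using hC N

theorem nonres {d : ℕ} (hd : 2 ≤ d) {c : ℂ} (hc : c ∈ multibrotSet d)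
    (h : Pool.Agent.R240.Res.Nonres d c) : Nonresonant d Pool.Agent.R240.Res.KR c := by
  intro q hq hr X hX
  have h1 := h q hq hr X hX
  filter_upwards [h1] with n hn
  refine ⟨fun a ha => ?_, fun Φ M hΦ hM => ?_⟩
  · rw [dist_eq_norm]
    exact hn.1 a ha
  · have h2 : HasDerivAt (fun t : ℂ => (g d c Φ t)^[n] 0) (Pool.Agent.R240.Univ.vel d c Φ n) 0 :=
      Pool.Agent.R240.Univ.vel_deriv hd hc hΦ n
    refine ⟨h2.differentiableAt, ?_⟩
    rw [h2.deriv]
    exact hn.2 Φ M hΦ hM

theorem slim {d : ℕ} {ψ : ℂ → ℂ} (hd : 2 ≤ d) {c : ℂ} (hc : c ∈ multibrotSet d)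
    (h : Pool.Agent.R240.Slim.SlimAt d ψ c) : Slim d ψ c := by
  intro q hq hr
  apply h q hq
  rcases hr with rfl | hr
  · exact Pool.Agent.Y736.RN.ren_one hd hc
  · obtain ⟨U, h1, h2, h3, _⟩ := hr
    exact ⟨U, h1, h2, h3⟩

/-- almost every circle meets the boundary in good parameters only -/
theorem ae_good {d : ℕ} {ψ : ℂ → ℂ} (hd : 2 ≤ d) (hψ : IsExteriorMap (multibrotSet d) ψ) (p : ℂ) :
    ∀ᵐ s : ℝ, ∀ c ∈ frontier (multibrotSet d), dist c p = s →
      Good d Pool.Agent.R240.Res.KR ψ c := by
  filter_upwards [Pool.Agent.R449.MB.ae_nice hd p, Pool.Agent.R240.Res.ae_nonres hd p,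
    Pool.Agent.R240.Slim.ae_slim hd hψ p] with s h1 h2 h3 c hc hcs
  have hcM : c ∈ multibrotSet d :=
    (Pool.Agent.H712R2.isCompact_multibrot hd).isClosed.frontier_subset hc
  exact ⟨isolated hd (h1 c hc hcs), nonres hd hcM (h2 c hc hcs), slim hd hcM (h3 c hcM hcs)⟩

/-- **Local connectivity of the Multibrot sets is decided at the end parameters.** For every degree
`d ≥ 2`, with a constant `K`, for the Multibrot set `M` of degree `d`:

(1) `M` is locally connected if and only if it is locally connected at its end parameters;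

(2) `M` is locally connected if and only if, for every `η > 0`, any two end parameters are separated
in `M` by finitely many subcontinua of diameter less than `η`;

(3) `M` is locally connected if any two end parameters are separated in `M` by a locally connected
compact subset of `M`;

(4) `M` is locally connected at `p` if each end parameter near `p`, different from `p`, is a point of
local connectivity or separated from `p` in `M` by a locally connected compact subset of `M`;

(5) if `M` is not locally connected at `p`, then for some `ε > 0` there is a continuum `Y` in the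
boundary of `M` which contains `p`, such that `M` is not locally connected at any point of `Y`, at
most countably many points of `Y` cut `M`, almost every circle of radius less than `ε` about `p` meets
`Y`, and in end parameters only, and no two points of `Y` are separated in `M` by finitely many
subcontinua of diameter less than `ε`, or by a locally connected compact subset of `M`. -/
theorem result (d : ℕ) (hd : 2 ≤ d) :
    (∃ ψ : ℂ → ℂ, IsExteriorMap (multibrotSet d) ψ) ∧
    (∀ n : ℕ, 1 ≤ n → (centres d n).Finite) ∧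
    ∃ K : ℝ, 0 < K ∧ ∀ ψ : ℂ → ℂ, IsExteriorMap (multibrotSet d) ψ →
      (LocallyConnectedSpace (multibrotSet d) ↔
        ∀ c, EndParameter d K ψ c → LocallyConnectedAt (multibrotSet d) c) ∧
      (LocallyConnectedSpace (multibrotSet d) ↔
        ∀ η : ℝ, 0 < η → ∀ a b, EndParameter d K ψ a → EndParameter d K ψ b → a ≠ b →
          SmallSeparation (multibrotSet d) η a b) ∧
      ((∀ a b, EndParameter d K ψ a → EndParameter d K ψ b → a ≠ b →
          LcSeparation (multibrotSet d) a b) → LocallyConnectedSpace (multibrotSet d)) ∧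
      (∀ (p : ℂ) (ρ : ℝ), 0 < ρ →
        (∀ c, EndParameter d K ψ c → c ≠ p → dist c p < ρ →
          LocallyConnectedAt (multibrotSet d) c ∨ LcSeparation (multibrotSet d) c p) →
        LocallyConnectedAt (multibrotSet d) p) ∧
      ∀ p : ℂ, ¬ LocallyConnectedAt (multibrotSet d) p →
        ∃ (ε : ℝ) (Y : Set ℂ), 0 < ε ∧ Y ⊆ frontier (multibrotSet d) ∧ IsCompact Y ∧
          IsConnected Y ∧ p ∈ Y ∧ (∀ c ∈ Y, ¬ LocallyConnectedAt (multibrotSet d) c) ∧
          {c | c ∈ Y ∧ ¬ IsPreconnected (multibrotSet d \ {c})}.Countable ∧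
          (∀ᵐ s : ℝ, 0 < s → s < ε → (∃ c ∈ Y, dist c p = s) ∧
            ∀ c ∈ Y, dist c p = s → EndParameter d K ψ c) ∧
          (∀ a ∈ Y, ∀ b ∈ Y, ¬ SmallSeparation (multibrotSet d) ε a b) ∧
          ∀ a ∈ Y, ∀ b ∈ Y, ¬ LcSeparation (multibrotSet d) a b := by
  obtain ⟨β, hβ⟩ := exists_beta (d := d) hd
  refine ⟨⟨_, exteriorMap_of_beta hβ⟩, ?_, Pool.Agent.R240.Res.KR, Pool.Agent.R240.Res.KR_pos, ?_⟩
  · intro n hn
    obtain ⟨N, rfl⟩ : ∃ N, n = N + 1 := ⟨n - 1, by omega⟩
    rw [centres_eq hd]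
    exact (Pool.Agent.R240.LL.ZZ d N).finite_toSet
  · intro ψ hψ
    have hX := Pool.Agent.H712R2.isCompact_multibrot hd
    have hc := (Pool.Agent.H712R2.isConnected_multibrot hd).isPreconnected
    have hG := ae_good hd hψ
    refine ⟨⟨fun h c hc => ?_, fun h => ?_⟩, ⟨fun h η hη a b ha hb hab => ?_, fun h => ?_⟩,
      fun h => ?_, fun p ρ hρ h => ?_, fun p hp => ?_⟩
    · exact Pool.Agent.R240.Loc.lcs_iff.1 h c (hX.isClosed.frontier_subset hc.1)
    · refine Pool.Agent.R240.Loc.lcs_iff.2 fun p _ => ?_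
      exact Pool.Agent.H7M.Fail.local_crit hX hc hG one_pos fun c hc _ _ => Or.inl (h c hc)
    · exact Pool.Agent.H7M.Fail.pinch_of_lc hX (Pool.Agent.R240.Loc.lcs_iff.1 h) hab hη
    · by_contra hcon
      obtain ⟨ε, hε, a, ha, b, hb, hab, h1, _⟩ := Pool.Agent.H7M.Fail.two_ends hX hc hG hcon
      exact h1 (h ε hε a b ha hb hab)
    · by_contra hcon
      obtain ⟨ε, hε, a, ha, b, hb, hab, _, h2⟩ := Pool.Agent.H7M.Fail.two_ends hX hc hG hcon
      exact h2 (h a b ha hb hab)
    · exact Pool.Agent.H7M.Fail.local_crit hX hc hG hρ fun c hc hcp hcρ => h c hc hcp hcρ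
    · obtain ⟨ε, Y, h1, h2, h3, h4, h5, h6, h7, h8, h9, h10⟩ :=
        Pool.Agent.H7M.Fail.structure_of_failure hX hc hG hp
      refine ⟨ε, Y, h1, h2, h3, h4, h5, h6, h7, ?_, h9, h10⟩
      filter_upwards [h8] with s hs hs0 hsε
      obtain ⟨hs1, hs2⟩ := hs hs0 hsε
      exact ⟨hs1, fun c hc hcs => ⟨h2 hc, hs2 c hc hcs⟩⟩

end Pool.Agent.Results.MP_fcb70f_an.EndParameters
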