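import Mathlib
import Pool.Prelude.Def_F_c31e40fa
import Pool.Agent.H79LC.A3
import Pool.Agent.H79LC.B4
import Pool.Agent.H79LC.C1
import Pool.Agent.H7M.Fin

set_option autoImplicit false

/-!
# The modulus of local connectivity of the Multibrot sets: a staircase of iterated logarithms

Let `ω_n(δ)` (`modulus`) be the supremum, over all points `x, y` of the Multibrot set `M_n` with
`|x - y| ≤ δ`, of the infimum of the diameters of the continua in `M_n` through `x` and `y`. Local
connectivity of `M_n` means `ω_n(δ) → 0` as `δ → 0`.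

The main component of `M_n` has `n - 1` cusps, at distance `ρ_n` (`cusp`) from `0` in the
directions `ω` with `ω ^ (n - 1) = 1`, and the half-lines behind the cusps are outside `M_n`. A
connected subset of `M_n` with points on both sides of such a half-line has to go around the cusp.
The depth `depth n δ` of the fjords at width `δ` is the largest excess `|x| - ρ_n` over all pairs of
points `x, y` of `M_n` on different sides of a half-line with `|x - y| ≤ δ`. It is a lower bound of
`ω_n(δ)`.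

* At the scales `δ = 1600 / (n log n ⋯ log^[k] n)` one has
  `ω_n(δ) ≥ (log^[k+1] n - 8) / (n - 1)`, for all `k ≥ 1` for which the iterated logarithms are at
  least `4`.
* For fixed `k` and `n → ∞` we compute `n * depth n δ` up to `o(1)`, for all scales
  `δ ≥ 1 / (n log n ⋯ log^[k] n)` up to constant factors: it is a staircase with the steps
  `log^[k] n + 1`.
* At the scales `δ ≤ c / n` one has `ω_n(δ) ≥ c √(δ / n)`: the main component and the components
  of period two touch from outside.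

Outline. (1) On the real axis let `x_k` be the parameter with `P_k(x_k) = 3`, where `P_k(c)` is the
`k`-th point of the critical orbit. If a disc of radius `r` about `x_k` does not meet `M_n`, all
points of the critical orbit have logarithms in the disc, and the Schwarz–Pick inequality gives
`r P_k'(x_k) ≤ 14`. The derivative is at least a multiple of the product of the iterated
logarithms. (2) Superattracting parameters of period `k + 1` on both sides of a half-line are found by
solving the equation backwards from the end of the orbit, a contraction. The points of `M_n` near the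
half-lines are excluded from greater depths since their critical orbits follow those of the points
of the half-line until they escape. (3) In the coordinate `ζ`, `c = A (1 + 1/n) (1 + ζ/n)`,
`A^(n-1) = -1/n`, the regions `C |ζ|² < ∓ Re ζ` belong to the components of period one and two, and a
separation argument with continuous logarithms shows that a connected subset of `M_n` through
points of the two parabolas `Re ζ = ∓ D (Im ζ)²` at height `η` has diameter at least `η / 2`.
-/

open Filter Topology Set Metric Complex N62a1eb23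

namespace Pool.Agent.Results.MP_fcb70f_an.ModulusStaircase

/-- The infimum of the diameters of the compact connected subsets of `M` which contain `x`
and `y`. -/
noncomputable def joining (M : Set ℂ) (x y : ℂ) : ℝ :=
  sInf {D : ℝ | ∃ S : Set ℂ, S ⊆ M ∧ IsCompact S ∧ IsConnected S ∧ x ∈ S ∧ y ∈ S ∧
    D = Metric.diam S}

/-- The modulus of local connectivity of `M`: the supremum of `joining M x y` over all points `x, y`
of `M` at distance at most `δ`. -/
noncomputable def modulus (M : Set ℂ) (δ : ℝ) : ℝ :=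
  sSup {D : ℝ | ∃ x ∈ M, ∃ y ∈ M, dist x y ≤ δ ∧ D = joining M x y}

/-- The iterated logarithm `log (log (⋯ log n))`, `k` times; `L 0 n = n`. -/
noncomputable def L (k n : ℕ) : ℝ := Real.log^[k] n

/-- The product `log n * log (log n) * ⋯` of the first `m` iterated logarithms. -/
noncomputable def Q (m n : ℕ) : ℝ := ∏ j ∈ Finset.range m, L (j + 1) n

/-- The distance from `0` of the cusps of the main component of the Multibrot set `M_n`:
`s - s ^ n`, where `s ^ (n - 1) = 1 / n`. -/
noncomputable def cusp (n : ℕ) : ℝ := Real.exp (-(Real.log n / ((n : ℝ) - 1))) * (1 - 1 / n)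

/-- The open sector between two consecutive directions `ω` with `ω ^ (n - 1) = 1`. -/
def Sector (n : ℕ) (j : ℤ) : Set ℂ :=
  Complex.exp '' {w : ℂ | 2 * Real.pi * j / ((n : ℝ) - 1) < w.im ∧
    w.im < 2 * Real.pi * (j + 1 : ℤ) / ((n : ℝ) - 1)}

/-- The point `f_c^k (0)` of the critical orbit of `f_c (z) = z ^ n + c`. -/
def P (n k : ℕ) (c : ℂ) : ℂ := (fun z : ℂ => z ^ n + c)^[k] 0

/-- The depth of the fjords of `M_n` at width `δ`: the supremum of `|x| - cusp n` over all pairs of
points `x, y` of `M_n` at distance at most `δ` such that `x` is in a sector and `y` is not in it. -/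
noncomputable def depth (n : ℕ) (δ : ℝ) : ℝ :=
  sSup {D : ℝ | ∃ x ∈ multibrotSet n, ∃ y ∈ multibrotSet n, ∃ j : ℤ,
    x ∈ Sector n j ∧ y ∉ Sector n j ∧ dist x y ≤ δ ∧ D = ‖x‖ - cusp n}

theorem cusp_eq {n : ℕ} (hn : 2 ≤ n) : cusp n = Pool.Agent.H712R2.rr n :=
  (Pool.Agent.H712R2.rr_eq hn).symm

theorem sector_eq (n : ℕ) (j : ℤ) : Sector n j = Pool.Agent.N228.LC.sector
    (Pool.Agent.H712R2.th n j) (Pool.Agent.H712R2.th n (j + 1)) := rfl

theorem depth_eq {n : ℕ} (hn : 2 ≤ n) (δ : ℝ) : depth n δ = Pool.Agent.H7M.Fin.dep n δ := by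
  unfold depth
  simp only [cusp_eq hn]
  rfl

theorem modulus_eq : modulus = Pool.Agent.N228.LC.modulus := rfl

theorem prod_eq (k n : ℕ) : ∏ i ∈ Finset.range (k + 1), (Real.log^[i] (n : ℝ)) = n * Q k n := by
  rw [Finset.prod_range_succ', mul_comm]
  rfl

/-- **The modulus of local connectivity of the Multibrot sets.**

(1) For `n ≥ 2`: `M_n` is locally connected if and only if its modulus tends to `0`; the closed disc
of radius `cusp n` is in `M_n`, the half-lines behind the cusps are outside `M_n`, and the depth of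
the fjords at width `δ` is at most the modulus at `δ`.
(2) Uniformly in `k`: if `n, log n, …, log^[k] n` are at least `4`, `k ≥ 1`, then there are points `y`
and `conj y` of `M_n` at distance at most `1600 / (n log n ⋯ log^[k] n)` such that each connected
subset of `M_n` containing both has diameter at least `(log^[k+1] n - 8) / (n - 1)`.
(3) Sharp two-sided form: for every `k ≥ 2` and `ε > 0` there is `c > 0` such that for all large `n`
and all `δ` with `(2 π + ε) / (n log n ⋯ log^[k-1] n) ≤ δ ≤ c / (n log n ⋯ log^[k-2] n)` the depth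
of the fjords at width `δ` is `(log^[k] n + 1) / n` up to `ε / n`.
(4) For every `k ≥ 1` and `ε > 0` and all large `n` there are two superattracting parameters `x ≠ y`
of period dividing `k + 1` at distance at most `(2 π + ε) / (n log n ⋯ log^[k-1] n)` such that every
connected subset of `M_n` containing both has diameter at least `(log^[k] n + 1 - ε) / n`.
(5) For every `k ≥ 2` and `ε > 0` there is `c > 0` such that for all large `n` any two points of `M_n`
on different sides of a half-line, at distance at most `c / (n log n ⋯ log^[k-2] n)`, have absolute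
values at most `cusp n + (log^[k] n + 1 + ε) / n`.
(6) With absolute constants, for all `n ≥ 2` and `δ ≤ δ₀ / n` the modulus at `δ` is at least
`κ √(δ / n)`; this is attained up to a constant factor by pairs of points in the components of
period one and two on both sides of each point where they touch. -/
theorem result :
    (∀ n : ℕ, 2 ≤ n → (LocallyConnectedSpace (multibrotSet n) ↔
        Tendsto (modulus (multibrotSet n)) (𝓝[>] 0) (𝓝 0)) ∧
      (∀ c : ℂ, ‖c‖ ≤ cusp n → c ∈ multibrotSet n) ∧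
      (∀ (ω : ℂ) (t : ℝ), ω ^ (n - 1) = 1 → cusp n < t → ω * t ∉ multibrotSet n) ∧
      ∀ δ : ℝ, depth n δ ≤ modulus (multibrotSet n) δ) ∧
    (∀ n k : ℕ, 1 ≤ k → (∀ i ≤ k, 4 ≤ L i n) →
      (∃ y ∈ multibrotSet n, (starRingEnd ℂ) y ∈ multibrotSet n ∧
        dist y ((starRingEnd ℂ) y) ≤ 1600 / (n * Q k n) ∧
        ∀ S : Set ℂ, S ⊆ multibrotSet n → IsPreconnected S → y ∈ S → (starRingEnd ℂ) y ∈ S →
          (L (k + 1) n - 8) / ((n : ℝ) - 1) ≤ Metric.diam S) ∧
      ∀ δ : ℝ, 1600 / (n * Q k n) ≤ δ →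
        (L (k + 1) n - 8) / ((n : ℝ) - 1) ≤ modulus (multibrotSet n) δ) ∧
    (∀ k : ℕ, 2 ≤ k → ∀ ε : ℝ, 0 < ε → ∃ c : ℝ, 0 < c ∧ ∀ᶠ n : ℕ in atTop, ∀ δ : ℝ,
      (2 * Real.pi + ε) / (n * Q (k - 1) n) ≤ δ → δ ≤ c / (n * Q (k - 2) n) →
      |n * depth n δ - (L k n + 1)| ≤ ε) ∧
    (∀ k : ℕ, 1 ≤ k → ∀ ε : ℝ, 0 < ε → ∀ᶠ n : ℕ in atTop,
      ∃ x ∈ multibrotSet n, ∃ y ∈ multibrotSet n, x ≠ y ∧ P n (k + 1) x = 0 ∧ P n (k + 1) y = 0 ∧
        dist x y ≤ (2 * Real.pi + ε) / (n * Q (k - 1) n) ∧
        ∀ S : Set ℂ, S ⊆ multibrotSet n → IsPreconnected S → x ∈ S → y ∈ S →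
          (L k n + 1 - ε) / n ≤ Metric.diam S) ∧
    (∀ k : ℕ, 2 ≤ k → ∀ ε : ℝ, 0 < ε → ∃ c : ℝ, 0 < c ∧ ∀ᶠ n : ℕ in atTop,
      ∀ x ∈ multibrotSet n, ∀ y ∈ multibrotSet n, ∀ j : ℤ, x ∈ Sector n j → y ∉ Sector n j →
        dist x y ≤ c / (n * Q (k - 2) n) →
        ‖x‖ ≤ cusp n + (L k n + 1 + ε) / n ∧ ‖y‖ ≤ cusp n + (L k n + 1 + ε) / n) ∧
    (∃ κ K δ₀ : ℝ, 0 < κ ∧ 0 < K ∧ 0 < δ₀ ∧ ∀ n : ℕ, 2 ≤ n → ∀ δ : ℝ, 0 < δ → δ ≤ δ₀ / n →
      κ * Real.sqrt (δ / n) ≤ modulus (multibrotSet n) δ ∧
      ∀ A : ℂ, A ^ (n - 1) = -1 / n → ∃ x ∈ multibrotSet n, ∃ y ∈ multibrotSet n,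
        (∃ z, IsAttractingCycle (fun z => z ^ n + x) 1 z) ∧
        (∃ z, z ^ n + y ≠ z ∧ IsAttractingCycle (fun z => z ^ n + y) 2 z) ∧
        dist x y ≤ δ ∧
        (∃ T : Set ℂ, T ⊆ multibrotSet n ∧ IsCompact T ∧ IsConnected T ∧ x ∈ T ∧ y ∈ T ∧
          A * (1 + 1 / n) ∈ T ∧ Metric.diam T ≤ K * Real.sqrt (δ / n)) ∧
        ∀ S : Set ℂ, S ⊆ multibrotSet n → IsPreconnected S → x ∈ S → y ∈ S →
          κ * Real.sqrt (δ / n) ≤ Metric.diam S) := by
  refine ⟨fun n hn => ⟨Pool.Agent.H79LC.lc_iff hn, fun c hc => ?_, fun ω t hω ht => ?_,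
    fun δ => ?_⟩, ?_, fun k hk ε hε => ?_, fun k hk ε hε => ?_, fun k hk ε hε => ?_, ?_⟩
  · rw [cusp_eq hn] at hc
    exact Pool.Agent.H712R2.disc_subset hn hc
  · rw [cusp_eq hn] at ht
    exact Pool.Agent.H712R2.cusp_escape hn ht hω
  · rw [depth_eq hn]
    exact Pool.Agent.H7M.Fin.dep_le_modulus hn
  · intro n k hk h4
    have hn : 2 ≤ n := by
      have h0 : (4 : ℝ) ≤ n := h4 0 (Nat.zero_le _)
      have h1 : 4 ≤ n := by exact_mod_cast h0
      omega
    obtain ⟨y, hy1, hy2, hy3, hy4⟩ := Pool.Agent.H79LC.pairs hn hk h4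
    have hy3' : dist y ((starRingEnd ℂ) y) ≤ 1600 / (n * Q k n) := by
      rw [← prod_eq]
      exact hy3
    refine ⟨⟨y, hy1, hy2, hy3', hy4⟩, ?_⟩
    intro δ hδ
    exact (Pool.Agent.N228.LC.le_joining hn hy1 hy2 hy4).trans
      (Pool.Agent.N228.LC.le_modulus hn hy1 hy2 (hy3'.trans hδ))
  · obtain ⟨c, hc, h⟩ := Pool.Agent.H7M.Fin.dep_asymp hk hε
    refine ⟨c, hc, ?_⟩
    filter_upwards [h, eventually_ge_atTop 2] with n hn hn2
    intro δ h1 h2
    rw [depth_eq hn2]
    exact hn δ h1 h2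
  · filter_upwards [Pool.Agent.H7M.Fin.pairs hk hε, eventually_ge_atTop 2] with n hn hn2
    obtain ⟨x, hx, y, hy, j, hx0, hy0, hd, hs1, hs2, hdep⟩ := hn
    refine ⟨x, hx, y, hy, ?_, hx0, hy0, hd, ?_⟩
    · rintro rfl
      exact hs2 hs1
    · intro S hS hSc hxS hyS
      have h7 := Pool.Agent.N228.LC.diam_ge hn2 j hS hSc hxS hyS hs1 hs2
      have h9 := le_max_left ‖x‖ ‖y‖
      have h10 : (L k n + 1 - ε) / n ≤ ‖x‖ - Pool.Agent.H712R2.rr n := hdep
      linarith
  · obtain ⟨m, rfl⟩ : ∃ m, k = m + 2 := ⟨k - 2, by omega⟩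
    obtain ⟨c, hc, h⟩ := Pool.Agent.H7M.Gap.gap_pair m hε
    refine ⟨c, hc, ?_⟩
    filter_upwards [h, eventually_ge_atTop 2] with n hn hn2
    intro x hx y hy j hxs hys hd
    obtain ⟨h1, h2⟩ := hn x hx y hy j hxs hys hd
    rw [cusp_eq hn2]
    have h3 : (L (m + 2) n + 1 + ε) / n = (Pool.Agent.H7M.St.L (m + 2) n + 1 + ε) / n := rfl
    rw [h3]
    constructor <;> linarith
  · obtain ⟨κ, K, δ₀, hκ, hK, hδ₀, h⟩ := Pool.Agent.H79LC.small_scale
    refine ⟨κ, K, δ₀, hκ, hK, hδ₀, ?_⟩
    intro n hn δ hδ hδ'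
    refine ⟨?_, fun A hA => h n hn A hA δ hδ hδ'⟩
    have hm : n - 1 ≠ 0 := by omega
    obtain ⟨A, hA⟩ := IsAlgClosed.exists_pow_nat_eq (-1 / n : ℂ) (Nat.pos_of_ne_zero hm)
    obtain ⟨x, hx, y, hy, -, -, hxy, -, hS⟩ := h n hn A hA δ hδ hδ'
    exact (Pool.Agent.N228.LC.le_joining hn hx hy hS).trans
      (Pool.Agent.N228.LC.le_modulus hn hx hy hxy)

end Pool.Agent.Results.MP_fcb70f_an.ModulusStaircase
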