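import Mathlib
import Pool.Agent.H32MB.Final

set_option autoImplicit false

open Complex Set Topology Filter Metric MeasureTheory N62a1eb23
open Pool.Agent.H713R2

namespace Pool.Agent.Results.MP_fcb70f_an.NearlyRectifiable

/-- Let `ψ` be the conformal isomorphism from the exterior of the closed unit disc onto the
complement of the Multibrot set of degree `d`, `ψ z = z + ∑ b m / z ^ m`.

Part 1: there is an absolute constant `K` such that for all `d ≥ 8`, with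
`s = log (K (log d) ^ 2) / log d`, the length of the equipotential `ψ (|z| = R)`, `1 < R ≤ 2`, is
at most `K ^ 2 (log d) ^ 2 (6 / (R - 1)) ^ s` and `m |b m| ≤ K ^ 2 (log d) ^ 2 (m + 1) ^ s`.

Part 2: hence for every `ε > 0` and all large enough `d`, the equipotentials have length
`O ((R - 1) ^ (-ε))`, and `b m = O (m ^ (-1 + ε))`. -/
theorem result :
    (∃ K : ℝ, 1 ≤ K ∧ ∀ d : ℕ, 8 ≤ d →
      (∃ (ψ : ℂ → ℂ) (b : ℕ → ℂ), IsExteriorMap (multibrotSet d) ψ ∧ HasLaurent ψ b) ∧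
      ∀ ψ : ℂ → ℂ, IsExteriorMap (multibrotSet d) ψ →
        (∀ R : ℝ, 1 < R → R ≤ 2 →
          ∫ θ in (-Real.pi)..Real.pi, R * ‖deriv ψ (circleMap 0 R θ)‖ ≤
            K * (K * Real.log d ^ 2) *
              (6 / (R - 1)) ^ (Real.log (K * Real.log d ^ 2) / Real.log d)) ∧
        (∀ b : ℕ → ℂ, HasLaurent ψ b → ∀ m : ℕ, 1 ≤ m →
          (m : ℝ) * ‖b m‖ ≤ K * (K * Real.log d ^ 2) *
              ((m : ℝ) + 1) ^ (Real.log (K * Real.log d ^ 2) / Real.log d))) ∧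
    (∀ ε : ℝ, 0 < ε → ∃ d₀ : ℕ, ∀ d : ℕ, d₀ ≤ d → ∃ C : ℝ,
      ∀ ψ : ℂ → ℂ, IsExteriorMap (multibrotSet d) ψ →
        (∀ R : ℝ, 1 < R → R ≤ 2 →
          ∫ θ in (-Real.pi)..Real.pi, R * ‖deriv ψ (circleMap 0 R θ)‖ ≤ C * (R - 1) ^ (-ε)) ∧
        (∀ b : ℕ → ℂ, HasLaurent ψ b → ∀ m : ℕ, 1 ≤ m → ‖b m‖ ≤ C * (m : ℝ) ^ (-1 + ε))) := by
  refine ⟨?_, fun ε hε => Pool.Agent.H32MB.asymptotic_bounds hε⟩
  obtain ⟨K, hK, h⟩ := Pool.Agent.H32MB.explicit_bounds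
  refine ⟨K, hK, fun d hd => ⟨?_, h d hd⟩⟩
  obtain ⟨β, hβ⟩ := exists_beta (d := d) (by omega)
  exact ⟨_, _, exteriorMap_of_beta hβ, laurent_of_beta hβ⟩

end Pool.Agent.Results.MP_fcb70f_an.NearlyRectifiable
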